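import Pool.Agent.R135.WM.Stm
import Pool.Agent.R135.WM.VAL
import Pool.Agent.R135.WM.BCP
import Pool.Agent.R135.WM.C1
import Pool.Agent.R135.WM.C2
import Pool.Agent.R135.WM.CASM
import Pool.Agent.R135.WM.BLK
import Pool.Agent.R135.WM.STD
import Pool.Agent.R135.WM.BLOW
import Pool.Agent.R135.WM.GAP
import Pool.Agent.R135.WM.STEP
import Pool.Agent.R135.WM.LIM
import Pool.Agent.R135.WM.BF
import Pool.Agent.R135.WM.COL
import Pool.Agent.R135.WM.HIT
import Pool.Agent.R135.WM.HF
import Pool.Agent.R135.WM.HB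
import Pool.Agent.R135.WM.LIFT
import Pool.Agent.R135.WM.MAIN
import Pool.Agent.R135.WM.NOC
import Pool.Agent.R135.WM.RANK
import Pool.Agent.R135.WM.NEQ
import Pool.Agent.R135.WM.FIN

/-! MP_fd8bd4_lc, Q1: full answer, YES.

There are infinitely many pairwise Wadge-inequivalent minimal Borel subsets of the real line:
a sequence `Y n` of Borel sets, neither open nor closed, each of which is continuously reducible
to every Borel set `B`, neither open nor closed, that is reducible to it, and no two of which are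
Wadge equivalent.

Project WM: helper135 (construction, proof, statements, assembly) with the team members named in
the piece files. -/

namespace Pool.Agent.Results.MP_fd8bd4_lc.InfinitelyManyMinimal

open Pool.Agent.R135.WM

theorem result : ∃ Y : ℕ → Set ℝ,
    (∀ n, MeasurableSet (Y n) ∧ ¬ IsOpen (Y n) ∧ ¬ IsClosed (Y n) ∧
      ∀ B : Set ℝ, MeasurableSet B → ¬ IsOpen B → ¬ IsClosed B →
        (∃ f : ℝ → ℝ, Continuous f ∧ B = f ⁻¹' (Y n)) →
        ∃ g : ℝ → ℝ, Continuous g ∧ Y n = g ⁻¹' B) ∧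
    ∀ n m, n ≠ m →
      ¬ ((∃ f : ℝ → ℝ, Continuous f ∧ Y n = f ⁻¹' (Y m)) ∧
         (∃ g : ℝ → ℝ, Continuous g ∧ Y m = g ⁻¹' (Y n))) := by
  have hcode : StmCODE := casm c1 c2
  have hbcp : StmBCP := bcp val
  have hstd := std val hbcp hcode blk
  have hbf : BFconcl := bf gap step lim
  have hmain := main hbf col hit hf hb lift
  obtain ⟨Y, h1, h2⟩ := fin hstd blow hmain noc (neq val hbcp rank)
  refine ⟨Y, fun n => ?_, h2⟩
  obtain ⟨a, ⟨b, c⟩, d⟩ := h1 n
  exact ⟨a, b, c, fun B hB ho hc hr => d B hB ⟨ho, hc⟩ hr⟩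

end Pool.Agent.Results.MP_fd8bd4_lc.InfinitelyManyMinimal
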